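import Pool.Agent.Q44.HS.Blow

/-!
# A blow-up of a Hirzebruch surface with positive holomorphic sectional curvature

The surface is `{x y z = 1}` in `(ℙ¹)³`, that is `𝔽₀ = ℙ¹ × ℙ¹` blown up at `(0, ∞)` and `(∞, 0)`, and
the metric is `i ∂∂̄ log P(|u|², |v|²)` in the toric coordinates `(u, v)`, where
`P(s, t) = ∑ w_{ij} s^i t^j`, the sum being over the hexagon `0 ≤ i, j ≤ 6`, `|i - j| ≤ 3`, with
weights `1` (vertices), `4` (other boundary points), `23`, `40`, `87` (three orbits of the dihedral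
group of order 12) and `119` (centre).
-/

set_option autoImplicit false

open scoped Manifold ContDiff
open Pool.Agent.W549.CY (Cn HermitianMetric)
open Pool.Agent.TH598 (IsKahler)
open Pool.Agent.Q44.HS (IsBlowUp holSec)

namespace Pool.Agent.Results.MP_3413ae_ag.PosHSC

/-- The blow-up of `ℙ¹ × ℙ¹` at the two points `(0, ∞)` and `(∞, 0)` carries a Kähler metric with
positive holomorphic sectional curvature. -/
theorem result :
    ∃ (X : Type) (_ : TopologicalSpace X) (_ : ChartedSpace (Cn 2) X),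
      CompactSpace X ∧ T2Space X ∧ ConnectedSpace X ∧ IsManifold 𝓘(ℂ, Cn 2) ω X ∧
      (∃ π : X → OnePoint ℂ × OnePoint ℂ,
        IsBlowUp π {(((0 : ℂ) : OnePoint ℂ), OnePoint.infty),
          (OnePoint.infty, ((0 : ℂ) : OnePoint ℂ))}) ∧
      ∃ h : HermitianMetric 2 X, IsKahler h ∧
        ∀ e ∈ atlas (Cn 2) X, ∀ z ∈ e.target, ∀ v : Cn 2, v ≠ 0 → 0 < holSec (h.g e) z v :=
  ⟨Pool.Agent.Q44.HS.Surf, inferInstance, inferInstance, inferInstance, inferInstance,
    inferInstance, inferInstance, ⟨Pool.Agent.Q44.HS.bd, Pool.Agent.Q44.HS.isBlowUp_bd⟩,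
    Pool.Agent.Q44.HS.met, Pool.Agent.Q44.HS.isKahler_met,
    fun _ _ z _ _ hv => Pool.Agent.Q44.HS.holSec_pos z hv⟩

end Pool.Agent.Results.MP_3413ae_ag.PosHSC
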